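import Pool.Agent.R654.SharpCore
import Pool.Agent.R380.Ury.Final

/-!
MP_5b0e2c_al, Q1 (full positive answer, for `k = 2` and for `k = 3`): the rational Urysohn space has
a structurally sharply `2`-transitive and a structurally sharply `3`-transitive group action by
isometries.
-/

namespace Pool.Agent.Results.MP_5b0e2c_al.SharpUrysohn

/-- `X` is (isometric to) the rational Urysohn space. -/
structure IsRationalUrysohn (X : Type) [MetricSpace X] : Prop where
  countable : Countable X
  /-- all distances are rational -/
  rational : ∀ x y : X, ∃ q : ℚ, dist x y = q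
  /-- every isometry between finite subsets extends to an isometry of the whole space -/
  homogeneous : ∀ (A : Finset X) (f : X → X), (∀ x ∈ A, ∀ y ∈ A, dist (f x) (f y) = dist x y) →
    ∃ g : X ≃ᵢ X, ∀ x ∈ A, g x = f x
  /-- every finite metric space with rational distances embeds isometrically -/
  universal : ∀ (n : ℕ) (d : Fin n → Fin n → ℚ), (∀ i, d i i = 0) → (∀ i j, i ≠ j → 0 < d i j) →
    (∀ i j, d i j = d j i) → (∀ i j l, d i l ≤ d i j + d j l) →
    ∃ e : Fin n → X, ∀ i j, dist (e i) (e j) = d i j

/-- some group acts by isometries on `X`, structurally sharply `k`-transitively: any two `k`-tuples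
of distinct points with the same mutual distances are mapped to each other by exactly one element
of the group -/
def AdmitsSharp (X : Type) [MetricSpace X] (k : ℕ) : Prop :=
  ∃ (G : Type) (_ : Group G) (_ : MulAction G X),
    (∀ (g : G) (x y : X), dist (g • x) (g • y) = dist x y) ∧
    ∀ a b : Fin k → X, Function.Injective a → Function.Injective b →
      (∀ i j, dist (a i) (a j) = dist (b i) (b j)) → ∃! g : G, ∀ i, g • a i = b i

/-- Positive answer to Q1 of MP_5b0e2c_al, for both `k = 2` and `k = 3`. -/
theorem result (X : Type) [MetricSpace X] (hX : IsRationalUrysohn X) :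
    AdmitsSharp X 2 ∧ AdmitsSharp X 3 := by
  have hU : Pool.Agent.R380.Ury.UryS X := ⟨hX.countable, hX.rational, hX.homogeneous, hX.universal⟩
  haveI := hX.countable
  haveI := Pool.Agent.R380.Ury.infinite hU
  constructor
  · obtain ⟨G, h1, h2, h3, h4⟩ := Pool.Agent.R654.SharpCore.core (k := 2) (by norm_num)
      (Pool.Agent.R380.Ury.setup X 2) (Pool.Agent.R380.Ury.good hU (by norm_num) (by norm_num))
    exact Pool.Agent.R380.Ury.admits G h1 h2 h3 h4
  · obtain ⟨G, h1, h2, h3, h4⟩ := Pool.Agent.R654.SharpCore.core (k := 3) (by norm_num)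
      (Pool.Agent.R380.Ury.setup X 3) (Pool.Agent.R380.Ury.good hU (by norm_num) (by norm_num))
    exact Pool.Agent.R380.Ury.admits G h1 h2 h3 h4

end Pool.Agent.Results.MP_5b0e2c_al.SharpUrysohn
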